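import Pool.Agent.X190.PI.Stab

open Matrix Filter Topology

namespace Pool.Agent.Results.MP_3f52e1_an.NoUniformRate

/-- The products `A_n B_n ⋯ A_1 B_1`, where `A k` and `B k` stand for `A_{k+1}` and `B_{k+1}`. -/
noncomputable def prod {N M : ℕ} (A : ℕ → Matrix (Fin N) (Fin M) ℝ)
    (B : ℕ → Matrix (Fin M) (Fin N) ℝ) : ℕ → Matrix (Fin N) (Fin N) ℝ
  | 0 => 1
  | n + 1 => A n * B n * prod A B n

/-- Some single sequence in `ℬ` makes the products tend to `0` for every sequence in `𝒜`. -/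
def PathIndependentStabilizable {N M : ℕ} (𝒜 : Finset (Matrix (Fin N) (Fin M) ℝ))
    (ℬ : Finset (Matrix (Fin M) (Fin N) ℝ)) : Prop :=
  ∃ B : ℕ → Matrix (Fin M) (Fin N) ℝ, (∀ n, B n ∈ ℬ) ∧
    ∀ A : ℕ → Matrix (Fin N) (Fin M) ℝ, (∀ n, A n ∈ 𝒜) →
      Tendsto (fun n => prod A B n) atTop (𝓝 0)

/-- Some single sequence in `ℬ` gives a geometric rate, uniformly over all sequences in `𝒜`
(in the norm given by the largest entry). -/
def UniformRate {N M : ℕ} (𝒜 : Finset (Matrix (Fin N) (Fin M) ℝ))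
    (ℬ : Finset (Matrix (Fin M) (Fin N) ℝ)) : Prop :=
  ∃ B : ℕ → Matrix (Fin M) (Fin N) ℝ, (∀ n, B n ∈ ℬ) ∧
    ∃ C : ℝ, 0 < C ∧ ∃ r : ℝ, 0 < r ∧ r < 1 ∧
      ∀ A : ℕ → Matrix (Fin N) (Fin M) ℝ, (∀ n, A n ∈ 𝒜) →
        ∀ n, 1 ≤ n → ∀ i j, |prod A B n i j| ≤ C * r ^ n

open X190.PI

noncomputable def Am (c : Fin 3) : Matrix (Fin 7) (Fin 14) ℝ :=
  (Matrix.fromCols 1 (T c)).submatrix id (finSumFinEquiv (m := 7) (n := 7)).symm

noncomputable def Bm (b : Bool) : Matrix (Fin 14) (Fin 7) ℝ :=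
  (if b then Matrix.fromRows 0 D else Matrix.fromRows D 0).submatrix
    (finSumFinEquiv (m := 7) (n := 7)).symm id

theorem Am_mul_Bm (c : Fin 3) (b : Bool) : Am c * Bm b = stp c b := by
  unfold Am Bm stp
  rw [Matrix.submatrix_mul_equiv]
  cases b <;> simp [Matrix.fromCols_mul_fromRows]

theorem prod_mulVec (c : ℕ → Fin 3) (b : ℕ → Bool) (v : Fin 7 → ℝ) (n : ℕ) :
    prod (fun n => Am (c n)) (fun n => Bm (b n)) n *ᵥ v = orb c b v n := by
  induction n with
  | zero => simp [prod, orb]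
  | succ n ih =>
    simp only [prod, orb]
    rw [← Matrix.mulVec_mulVec, ih, Am_mul_Bm]

theorem prod_apply (c : ℕ → Fin 3) (b : ℕ → Bool) (n : ℕ) (i j : Fin 7) :
    prod (fun n => Am (c n)) (fun n => Bm (b n)) n i j = orb c b (Pi.single j 1) n i := by
  rw [← prod_mulVec, Matrix.mulVec_single_one]
  rfl

/-- There are finite sets `𝒜` of `7 × 14` matrices and `ℬ` of `14 × 7` matrices for which the
products are path-independent stabilizable, but for no sequence in `ℬ` is there a uniform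
geometric rate; indeed for every sequence in `ℬ` and every `n` some choice of `A_1, …, A_n`
makes an entry of the product at least `1/4` in absolute value. -/
theorem result :
    ∃ (𝒜 : Finset (Matrix (Fin 7) (Fin 14) ℝ)) (ℬ : Finset (Matrix (Fin 14) (Fin 7) ℝ)),
      𝒜.card ≤ 3 ∧ ℬ.card ≤ 2 ∧
      PathIndependentStabilizable 𝒜 ℬ ∧
      ¬ UniformRate 𝒜 ℬ ∧
      ∀ B : ℕ → Matrix (Fin 14) (Fin 7) ℝ, (∀ n, B n ∈ ℬ) → ∀ n,
        ∃ A : ℕ → Matrix (Fin 7) (Fin 14) ℝ, (∀ k, A k ∈ 𝒜) ∧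
          ∃ i j, 1 / 4 ≤ |prod A B n i j| := by
  classical
  have hbig : ∀ B : ℕ → Matrix (Fin 14) (Fin 7) ℝ,
      (∀ n, B n ∈ Finset.univ.image Bm) → ∀ n,
        ∃ A : ℕ → Matrix (Fin 7) (Fin 14) ℝ, (∀ k, A k ∈ Finset.univ.image Am) ∧
          ∃ i j, 1 / 4 ≤ |prod A B n i j| := by
    intro B hB n
    choose b _ hb using fun n => Finset.mem_image.1 (hB n)
    obtain rfl : (fun n => Bm (b n)) = B := funext hb
    obtain ⟨c, hc⟩ := large' b n
    refine ⟨fun n => Am (c n), fun k => Finset.mem_image_of_mem _ (Finset.mem_univ _), 3, ?_⟩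
    by_contra hcon
    push Not at hcon
    set P := prod (fun n => Am (c n)) (fun n => Bm (b n)) n with hP
    have h1 : orb c b (Z 1 1 0) n 3 = P 3 3 + P 3 4 + P 3 5 + P 3 6 := by
      rw [← prod_mulVec, ← hP]
      simp [Matrix.mulVec, dotProduct, Fin.sum_univ_succ, Z]
      ring_nf
    rw [h1] at hc
    have h3 := abs_lt.1 (hcon 3)
    have h4 := abs_lt.1 (hcon 4)
    have h5 := abs_lt.1 (hcon 5)
    have h6 := abs_lt.1 (hcon 6)
    have : |P 3 3 + P 3 4 + P 3 5 + P 3 6| < 1 := by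
      rw [abs_lt]
      constructor <;> linarith [h3.1, h3.2, h4.1, h4.2, h5.1, h5.2, h6.1, h6.2]
    linarith
  refine ⟨Finset.univ.image Am, Finset.univ.image Bm, Finset.card_image_le.trans (by simp),
    Finset.card_image_le.trans (by simp), ?_, ?_, hbig⟩
  · refine ⟨fun n => Bm (bstar n), fun n => Finset.mem_image_of_mem _ (Finset.mem_univ _), ?_⟩
    intro A hA
    choose c _ hc using fun n => Finset.mem_image.1 (hA n)
    obtain rfl : (fun n => Am (c n)) = A := funext hc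
    refine tendsto_pi_nhds.2 fun i => tendsto_pi_nhds.2 fun j => ?_
    simp only [prod_apply]
    exact tendsto_orb c (Pi.single j 1) i
  · rintro ⟨B, hB, C, hC, r, hr0, hr1, h⟩
    have hlim : Tendsto (fun n : ℕ => C * r ^ n) atTop (𝓝 0) := by
      have := (tendsto_pow_atTop_nhds_zero_of_lt_one hr0.le hr1).const_mul C
      rwa [mul_zero] at this
    obtain ⟨n, hn1, hn⟩ := ((hlim.eventually (gt_mem_nhds (by norm_num : (0 : ℝ) < 1 / 4))).and
      (eventually_ge_atTop 1)).exists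
    obtain ⟨A, hA, i, j, hij⟩ := hbig B hB n
    have := h A hA n hn i j
    linarith

end Pool.Agent.Results.MP_3f52e1_an.NoUniformRate
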